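import Pool.Agent.ZPK.StmtsR

/-!
# Squad ZPK, row UNC
-/

set_option autoImplicit false

namespace Pool.Agent.ZPK.H38

open Pool.Agent.ZPT Pool.Agent.ZP3

private theorem unc_np {p : ℕ} (hp : p.Prime) {K : Type} [NormedField K] [CharZero K]
    (hE : Ext p K) : ‖(p : K)‖ = (p : ℝ)⁻¹ := by
  have h := hE (p : ℚ)
  have : Fact p.Prime := ⟨hp⟩
  rw [padicNorm.padicNorm_p_of_prime] at h
  push_cast at h
  exact h

private theorem unc_sub {K : Type} [NormedField K] [IsUltrametricDist K] (x y : K) :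
    ‖x - y‖ ≤ max ‖x‖ ‖y‖ := by
  rw [sub_eq_add_neg, ← norm_neg y]
  exact IsUltrametricDist.norm_add_le_max _ _

private theorem unc_root {K : Type} [NormedField K] {x : K} {n : ℕ} (h : x ^ n = 1)
    (hn : n ≠ 0) : ‖x‖ = 1 :=
  (pow_eq_one_iff_of_nonneg (norm_nonneg _) hn).1 (by rw [← norm_pow, h, norm_one])

private theorem unc_pow {K : Type} [NormedField K] [IsUltrametricDist K] {x y : K}
    (hx : ‖x‖ ≤ 1) (hy : ‖y‖ ≤ 1) (n : ℕ) : ‖x ^ n - y ^ n‖ ≤ ‖x - y‖ := by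
  rw [← (Commute.all x y).geom_sum₂_mul, norm_mul]
  refine mul_le_of_le_one_left (norm_nonneg _) ?_
  refine IsUltrametricDist.norm_sum_le_of_forall_le_of_nonneg zero_le_one fun i _ => ?_
  rw [norm_mul, norm_pow, norm_pow]
  exact mul_le_one₀ (pow_le_one₀ (norm_nonneg _) hx) (pow_nonneg (norm_nonneg _) _)
    (pow_le_one₀ (norm_nonneg _) hy)

private theorem unc_pow_p {p : ℕ} (hp : p.Prime) {K : Type} [NormedField K] [CharZero K]
    [IsUltrametricDist K] (hE : Ext p K) {x y : K} (hx : ‖x‖ ≤ 1) (hy : ‖y‖ ≤ 1)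
    (hxy : ‖x - y‖ ≤ (p : ℝ)⁻¹) : ‖x ^ p - y ^ p‖ ≤ (p : ℝ)⁻¹ * ‖x - y‖ := by
  rw [← (Commute.all x y).geom_sum₂_mul, norm_mul]
  refine mul_le_mul_of_nonneg_right ?_ (norm_nonneg _)
  have h1 : ∑ i ∈ Finset.range p, x ^ i * y ^ (p - 1 - i) =
      (∑ i ∈ Finset.range p, (x ^ i - y ^ i) * y ^ (p - 1 - i)) + (p : K) * y ^ (p - 1) := by
    have h2 : (p : K) * y ^ (p - 1) = ∑ i ∈ Finset.range p, y ^ i * y ^ (p - 1 - i) := by
      have h3 : ∀ i ∈ Finset.range p, y ^ i * y ^ (p - 1 - i) = y ^ (p - 1) := by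
        intro i hi
        have := Finset.mem_range.1 hi
        rw [← pow_add]
        congr 1
        omega
      rw [Finset.sum_congr rfl h3, Finset.sum_const, Finset.card_range, nsmul_eq_mul]
    rw [h2, ← Finset.sum_add_distrib]
    exact Finset.sum_congr rfl fun i _ => by ring
  rw [h1]
  refine (IsUltrametricDist.norm_add_le_max _ _).trans (max_le ?_ ?_)
  · refine (IsUltrametricDist.norm_sum_le_of_forall_le_of_nonneg (norm_nonneg (x - y))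
      fun i _ => ?_).trans hxy
    rw [norm_mul]
    have h4 : ‖y ^ (p - 1 - i)‖ ≤ 1 := by
      rw [norm_pow]; exact pow_le_one₀ (norm_nonneg _) hy
    calc ‖x ^ i - y ^ i‖ * ‖y ^ (p - 1 - i)‖ ≤ ‖x - y‖ * 1 :=
          mul_le_mul (unc_pow hx hy i) h4 (norm_nonneg _) (norm_nonneg _)
      _ = ‖x - y‖ := mul_one _
  · rw [norm_mul, unc_np hp hE, norm_pow]
    exact mul_le_of_le_one_right (by positivity) (pow_le_one₀ (norm_nonneg _) hy)

/-- The case of units. -/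
private theorem unc_unit (hURR : URRStmt) (hURT : URTStmt) (hTHB : THBStmt) (hSPL : SPLStmt)
    (hWTM : WTMStmt) (hWWN : WWNStmt) (hUNV : UnvStmt) {p : ℕ} (hp : p.Prime) (hp5 : 5 ≤ p)
    {K : Type} [NormedField K] [CharZero K] [IsUltrametricDist K] (hE : Ext p K) (L : Subfield K)
    (hL : Unr p L) {u : K} (hu : u ∈ L) (hu1 : ‖u‖ = 1) {ζ : K} (hζ : Ro ζ) :
    ‖u - ζ‖ = 0 ∨ (∃ k : ℤ, ‖u - ζ‖ = (p : ℝ) ^ k) ∨ ∃ h : ℕ,
      ‖u - ζ‖ ^ (p ^ h * (p - 1)) = (p : ℝ)⁻¹ := by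
  have hp1 : (1 : ℝ) < p := by exact_mod_cast hp.one_lt
  have hpi : (p : ℝ)⁻¹ < 1 := inv_lt_one_of_one_lt₀ hp1
  obtain ⟨M, hM, hζM⟩ := hζ
  have hζ1 : ‖ζ‖ = 1 := unc_root hζM (by omega)
  have hle : ‖u - ζ‖ ≤ 1 := (unc_sub _ _).trans
    (max_le hu1.le hζ1.le)
  rcases hle.lt_or_eq with hlt | heq
  swap
  · exact Or.inr (Or.inl ⟨0, by rw [heq, zpow_zero]⟩)
  obtain ⟨y, w, hyw, hy, hw⟩ := hSPL p hp K ζ ⟨M, hM, hζM⟩
  obtain ⟨hUry, hy1⟩ := (hURT p hp K hE).1 y hy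
  have hUru : Ur p u := (hUNV p hp K hE L hL).1 u hu hu1.le
  have hw1 : ‖w - 1‖ < 1 := by
    rcases hw with rfl | ⟨k, hk, hwk⟩
    · rw [sub_self, norm_zero]; exact zero_lt_one
    · exact (hWWN p hp (by omega) K hE k w hk hwk).2.2.1
  have hζy : ‖ζ - y‖ = ‖w - 1‖ := by
    have : ζ - y = y * (w - 1) := by rw [hyw]; ring
    rw [this, norm_mul, hy1, one_mul]
  have huy : ‖u - y‖ < 1 := by
    have : u - y = (u - ζ) + (ζ - y) := by ring
    rw [this]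
    refine lt_of_le_of_lt (IsUltrametricDist.norm_add_le_max _ _) (max_lt hlt ?_)
    rw [hζy]; exact hw1
  have huy2 : ‖u - y‖ ≤ (p : ℝ)⁻¹ :=
    (hURR p hp K hE).2.2.2.1 _ (((hURR p hp K hE).1 u y hUru hUry).2.2.2) huy
  rcases hw with hw | ⟨k, hk, hwk⟩
  · -- the tame case
    subst hw
    rw [mul_one] at hyw
    subst hyw
    by_cases h0 : u = ζ
    · left; rw [h0, sub_self, norm_zero]
    right; left
    obtain ⟨F, hF, hFx⟩ := hL
    have h1 : ‖u ^ (p ^ F) - ζ ^ (p ^ F)‖ ≤ (p : ℝ)⁻¹ * ‖u - ζ‖ := by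
      obtain ⟨F', rfl⟩ : ∃ F', F = F' + 1 := ⟨F - 1, by omega⟩
      rw [pow_succ, pow_mul, pow_mul]
      have h2 : ‖u ^ (p ^ F') - ζ ^ (p ^ F')‖ ≤ ‖u - ζ‖ := unc_pow hu1.le hζ1.le _
      refine (unc_pow_p hp hE ?_ ?_ (h2.trans huy2)).trans
        (mul_le_mul_of_nonneg_left h2 (by positivity))
      · rw [norm_pow, hu1, one_pow]
      · rw [norm_pow, hζ1, one_pow]
    have h2 : ζ ^ (p ^ F) = ζ := by
      have h3 : ‖ζ ^ (p ^ F) - ζ‖ < 1 := by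
        have : ζ ^ (p ^ F) - ζ = (u ^ (p ^ F) - u) - (u ^ (p ^ F) - ζ ^ (p ^ F)) + (u - ζ) := by
          ring
        rw [this]
        refine lt_of_le_of_lt (IsUltrametricDist.norm_add_le_max _ _) (max_lt ?_ huy)
        refine lt_of_le_of_lt (unc_sub _ _) (max_lt ?_ ?_)
        · exact lt_of_le_of_lt (hFx u hu hu1.le) hpi
        · refine lt_of_le_of_lt h1 ?_
          calc (p : ℝ)⁻¹ * ‖u - ζ‖ ≤ (p : ℝ)⁻¹ * 1 :=
                mul_le_mul_of_nonneg_left hle (by positivity)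
            _ < 1 := by rw [mul_one]; exact hpi
      have hF1 : 1 ≤ p ^ F := Nat.one_le_pow _ _ hp.pos
      have h4 : ζ ^ (p ^ F) = ζ * ζ ^ (p ^ F - 1) := by
        rw [← pow_succ', Nat.sub_add_cancel hF1]
      have h5 : ‖ζ ^ (p ^ F - 1) - 1‖ < 1 := by
        have : ζ ^ (p ^ F) - ζ = ζ * (ζ ^ (p ^ F - 1) - 1) := by rw [h4]; ring
        rw [this, norm_mul, hζ1, one_mul] at h3
        exact h3
      have h6 : Tame p (ζ ^ (p ^ F - 1)) := by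
        obtain ⟨N, hN, hpN, hζN⟩ := hy
        exact ⟨N, hN, hpN, by rw [← pow_mul, mul_comm, pow_mul, hζN, one_pow]⟩
      rw [h4, hWTM p hp K hE _ h6 h5, mul_one]
    have h0' : 0 < ‖u - ζ‖ := norm_pos_iff.2 (sub_ne_zero.2 h0)
    have h3 : ‖u ^ (p ^ F) - ζ‖ < ‖u - ζ‖ := by
      rw [h2] at h1
      refine lt_of_le_of_lt h1 ?_
      calc (p : ℝ)⁻¹ * ‖u - ζ‖ < 1 * ‖u - ζ‖ := mul_lt_mul_of_pos_right hpi h0'
        _ = ‖u - ζ‖ := one_mul _
    have h4 : ‖u - u ^ (p ^ F)‖ = ‖u - ζ‖ := by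
      have h5 : u - u ^ (p ^ F) = (u - ζ) + (ζ - u ^ (p ^ F)) := by ring
      rw [norm_sub_rev] at h3
      rw [h5, IsUltrametricDist.norm_add_eq_max_of_norm_ne_norm h3.ne', max_eq_left h3.le]
    have h5 : u - u ^ (p ^ F) ∈ L := L.sub_mem hu (L.pow_mem hu _)
    have h6 : u - u ^ (p ^ F) ≠ 0 := by
      intro h
      rw [h, norm_zero] at h4
      exact h0'.ne h4
    obtain ⟨k, hk⟩ := (hUNV p hp K hE L ⟨F, hF, hFx⟩).2 _ h5 h6
    exact ⟨k, by rw [← h4, hk]⟩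
  · -- the wild case
    right; right
    obtain ⟨h1, h2, h3, -⟩ := hWWN p hp (by omega) K hE k w hk hwk
    obtain ⟨-, ht0, ht1, htp, -⟩ := hTHB p hp hp5
    have h4 : th p ^ 3 ≤ th p := by
      calc th p ^ 3 ≤ th p ^ 1 := pow_le_pow_of_le_one ht0.le ht1.le (by norm_num)
        _ = th p := pow_one _
    have h5 : ‖u - y‖ < ‖ζ - y‖ := by
      rw [hζy]
      exact lt_of_le_of_lt huy2 (lt_of_lt_of_le htp (h4.trans h2))
    have h6 : ‖u - ζ‖ = ‖w - 1‖ := by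
      have h7 : u - ζ = (u - y) + (y - ζ) := by ring
      rw [norm_sub_rev ζ y] at h5 hζy
      rw [h7, IsUltrametricDist.norm_add_eq_max_of_norm_ne_norm h5.ne, max_eq_right h5.le, hζy]
    exact ⟨k - 1, by rw [h6, h1]⟩

/-- Row UNC. -/
theorem unc (hURR : URRStmt) (hURT : URTStmt) (hTHB : THBStmt) (hSPL : SPLStmt)
    (hWTM : WTMStmt) (hWWN : WWNStmt) (hUNV : UnvStmt) : UncStmt := by
  intro p hp hp5 K _ _ _ hE L hL α hα β hβ ζ hζ
  have hval := (hUNV p hp K hE L hL).2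
  have hζ1 : ‖ζ‖ = 1 := by
    obtain ⟨M, hM, hζM⟩ := hζ
    exact unc_root hζM (by omega)
  by_cases hβ0 : β = 0
  · rw [hβ0, mul_zero, sub_zero]
    by_cases hα0 : α = 0
    · left; rw [hα0, norm_zero]
    · exact Or.inr (Or.inl (hval α hα hα0))
  by_cases hα0 : α = 0
  · rw [hα0, zero_sub, norm_neg, norm_mul, hζ1, one_mul]
    exact Or.inr (Or.inl (hval β hβ hβ0))
  by_cases hne : ‖α‖ = ‖β‖
  swap
  · right; left
    have h1 : ‖α - ζ * β‖ = max ‖α‖ ‖β‖ := by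
      have h2 : ‖α‖ ≠ ‖-(ζ * β)‖ := by rwa [norm_neg, norm_mul, hζ1, one_mul]
      rw [sub_eq_add_neg, IsUltrametricDist.norm_add_eq_max_of_norm_ne_norm h2, norm_neg,
        norm_mul, hζ1, one_mul]
    rw [h1]
    rcases max_choice ‖α‖ ‖β‖ with h | h
    · rw [h]; exact hval α hα hα0
    · rw [h]; exact hval β hβ hβ0
  have hβn : ‖β‖ ≠ 0 := norm_ne_zero_iff.2 hβ0
  have h1 : ‖α - ζ * β‖ = ‖β‖ * ‖α / β - ζ‖ := by
    rw [← norm_mul]
    congr 1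
    field_simp
  obtain ⟨k₀, hk₀⟩ := hval β hβ hβ0
  have hu1 : ‖α / β‖ = 1 := by rw [norm_div, hne, div_self hβn]
  have hp0 : (p : ℝ) ≠ 0 := by exact_mod_cast hp.ne_zero
  rcases unc_unit hURR hURT hTHB hSPL hWTM hWWN hUNV hp hp5 hE L hL (L.div_mem hα hβ) hu1 hζ with
    h | ⟨k, h⟩ | ⟨h', h⟩
  · left; rw [h1, h, mul_zero]
  · right; left
    exact ⟨k₀ + k, by rw [h1, h, hk₀, zpow_add₀ hp0]⟩
  · right; right
    exact ⟨k₀, h', by rw [h1, mul_pow, h, hk₀]⟩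

end Pool.Agent.ZPK.H38
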